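import Pool.Agent.helper65.GD.SpecF

set_option autoImplicit false

namespace Pool.Agent.GD

open Finset Metric Filter Topology

/-- first part -/
lemma XFB_first (p n j : ℕ) (g e h : ℕ → ℂ) (h1 : 1 ≤ j) (hj : j ≤ p + 1) (hn : p + 1 < n)
    (hh : ∀ k, k ≤ p → h k = if k + 1 < j then 0 else j * e (k + 1 - j)) :
    ∑ k ∈ range (p + 1), g (n - 1 - k) * h k =
      (j : ℂ) * ∑ i ∈ range (p + 1 - j + 1), g ((n - p - 1) + (p + 1 - j) - i) * e i := by
  have hs : range (p + 1) = range (j - 1) ∪ Ico (j - 1) (p + 1) := by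
    ext a
    simp only [mem_range, mem_union, mem_Ico]
    omega
  have hd : Disjoint (range (j - 1)) (Ico (j - 1) (p + 1)) := by
    rw [Finset.disjoint_left]
    intro a ha hb
    simp only [mem_range, mem_Ico] at ha hb
    omega
  rw [hs, Finset.sum_union hd]
  have e0 : ∑ k ∈ range (j - 1), g (n - 1 - k) * h k = 0 := by
    refine Finset.sum_eq_zero fun k hk => ?_
    have := mem_range.1 hk
    rw [hh k (by omega), if_pos (by omega), mul_zero]
  rw [e0, zero_add, Finset.sum_Ico_eq_sum_range, Finset.mul_sum, show p + 1 - (j - 1) = p + 1 - j + 1 by omega]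
  refine Finset.sum_congr rfl fun i hi => ?_
  have := mem_range.1 hi
  rw [hh (j - 1 + i) (by omega), if_neg (by omega), show j - 1 + i + 1 - j = i by omega,
    show n - 1 - (j - 1 + i) = (n - p - 1) + (p + 1 - j) - i by omega]
  ring

lemma XFB_P (g e : ℕ → ℂ) (D : ℝ) (hD : Dat g e D) (A r : ℕ) (hA : 1 ≤ A) :
    ‖∑ i ∈ range (r + 1), g (A + r - i) * e i‖ ≤ TT r A +
      (if 2 ≤ r then (A : ℝ) * (A + 1) / 2 * D * (((r : ℝ) ^ 2 + 4 * r - 8) / 3) else 0) := by
  rcases Nat.lt_or_ge r 2 with h | h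
  · rw [if_neg (by omega), add_zero]
    interval_cases r
    · have := hD.gb A
      simp only [TT]
      simp [hD.e0]
      exact this
    · have := hD.p1 A hA
      simpa [TT] using this
  · rw [if_pos h]
    have := hD.p2 A r hA h
    have ht : TT r A = 4 * A + 2 := by
      unfold TT
      rw [if_neg (by omega), if_neg (by omega)]
    rw [ht]
    exact this

lemma XFB_h (p j : ℕ) (g e h : ℕ → ℂ) (D : ℝ) (hD : Dat g e D) (h1 : 1 ≤ j)
    (hh : ∀ k, k ≤ p → h k = if k + 1 < j then 0 else j * e (k + 1 - j)) (k : ℕ) (hk : k ≤ p) :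
    ‖h k‖ ≤ j * ((if k + 1 < j then 0 else EE (k + 1 - j)) - if k = j then D else 0) := by
  rw [hh k hk]
  rcases Nat.lt_or_ge (k + 1) j with h2 | h2
  · rw [if_pos h2, if_pos h2, if_neg (by omega)]
    simp
  · rw [if_neg (by omega), if_neg (by omega), norm_mul, Complex.norm_natCast]
    refine mul_le_mul_of_nonneg_left ?_ (Nat.cast_nonneg j)
    rcases eq_or_ne k j with h3 | h3
    · subst h3
      rw [if_pos rfl, show k + 1 - k = 1 by omega]
      have := hD.e1
      simpa [EE] using this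
    · rw [if_neg h3, sub_zero]
      obtain ⟨i, hi⟩ : ∃ i, k + 1 - j = i := ⟨_, rfl⟩
      rw [hi]
      have hi1 : i ≠ 1 := by omega
      rcases Nat.lt_or_ge i 3 with h4 | h4
      · interval_cases i
        · simp [EE, hD.e0]
        · omega
        · have := hD.e2
          simpa [EE] using this
      · have := hD.e3 i
        unfold EE
        rw [if_neg (by omega), if_neg (by omega), if_neg (by omega)]
        exact this

theorem XFB (hXNI : XNI_stmt) (hXN3 : XN3_stmt) : XFB_stmt := by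
  intro p n j g e h D hD h1 hj hn hh hm
  have hjr : (0 : ℝ) < j := by exact_mod_cast h1
  have hs : gs g h n = ∑ k ∈ range (p + 1), g (n - 1 - k) * h k + ∑ m ∈ Ioo p n, g (n - 1 - m) * h m := by
    unfold gs
    have hs : range n = range (p + 1) ∪ Ioo p n := by
      ext a
      simp only [mem_range, mem_union, mem_Ioo]
      omega
    have hd : Disjoint (range (p + 1)) (Ioo p n) := by
      rw [Finset.disjoint_left]
      intro a ha hb
      simp only [mem_range, mem_Ioo] at ha hb
      omega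
    rw [hs, Finset.sum_union hd]
  set A : ℕ := n - p - 1 with hA
  set r : ℕ := p + 1 - j with hr
  have hA1 : 1 ≤ A := by omega
  -- first part
  have f1 : ‖∑ k ∈ range (p + 1), g (n - 1 - k) * h k‖ ≤ j * (TT r A +
      (if 2 ≤ r then (A : ℝ) * (A + 1) / 2 * D * (((r : ℝ) ^ 2 + 4 * r - 8) / 3) else 0)) := by
    rw [XFB_first p n j g e h h1 hj hn hh, norm_mul, Complex.norm_natCast]
    exact mul_le_mul_of_nonneg_left (XFB_P g e D hD A r hA1) hjr.le
  -- nonnegativity of AA
  have hAA : ∀ m k : ℕ, 1 ≤ k → k ≤ p → p < m → 0 ≤ AA p m k := fun m k a b c => (nue_holds p m k a b c).2.1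
  -- second part
  have f2 : ‖∑ m ∈ Ioo p n, g (n - 1 - m) * h m‖ ≤ ∑ m ∈ Ioo p n, ((n : ℝ) - m) *
      (j * (∑ k ∈ Icc 1 p, AA p m k * (if k + 1 < j then 0 else EE (k + 1 - j)) -
        if j ≤ p then D * AA p m j else 0)) := by
    refine (norm_sum_le _ _).trans (Finset.sum_le_sum fun m hmm => ?_)
    obtain ⟨hm1, hm2⟩ := mem_Ioo.1 hmm
    rw [norm_mul]
    have hg : ‖g (n - 1 - m)‖ ≤ (n : ℝ) - m := by
      refine (hD.gb (n - 1 - m)).trans (le_of_eq ?_)
      have : ((n - 1 - m : ℕ) : ℝ) = (n : ℝ) - 1 - m := by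
        rw [Nat.cast_sub (by omega), Nat.cast_sub (by omega)]
        simp
      rw [this]
      ring
    have hnm : (0 : ℝ) ≤ (n : ℝ) - m := (norm_nonneg _).trans hg
    have hh2 : ‖h m‖ ≤ j * (∑ k ∈ Icc 1 p, AA p m k * (if k + 1 < j then 0 else EE (k + 1 - j)) -
        if j ≤ p then D * AA p m j else 0) := by
      refine (hm m hm1).trans ?_
      have : ∀ k ∈ Icc 1 p, AA p m k * ‖h k‖ ≤ j * (AA p m k * (if k + 1 < j then 0 else EE (k + 1 - j)) -
          if k = j then D * AA p m j else 0) := by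
        intro k hk
        obtain ⟨hk1, hk2⟩ := mem_Icc.1 hk
        have a1 := mul_le_mul_of_nonneg_left (XFB_h p j g e h D hD h1 hh k hk2) (hAA m k hk1 hk2 hm1)
        refine a1.trans (le_of_eq ?_)
        rcases eq_or_ne k j with h3 | h3
        · subst h3
          rw [if_pos rfl, if_pos rfl]
          ring
        · rw [if_neg h3, if_neg h3]
          ring
      refine (Finset.sum_le_sum this).trans (le_of_eq ?_)
      rw [← Finset.mul_sum, Finset.sum_sub_distrib, Finset.sum_ite_eq' (Icc 1 p) j (fun _ => D * AA p m j)]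
      congr 2
      by_cases hjp : j ≤ p
      · rw [if_pos hjp, if_pos (mem_Icc.2 ⟨h1, hjp⟩)]
      · rw [if_neg hjp, if_neg (fun hx => hjp (mem_Icc.1 hx).2)]
    exact mul_le_mul hg hh2 (norm_nonneg _) hnm
  have f3 : ∑ m ∈ Ioo p n, ((n : ℝ) - m) *
      (j * (∑ k ∈ Icc 1 p, AA p m k * (if k + 1 < j then 0 else EE (k + 1 - j)) -
        if j ≤ p then D * AA p m j else 0)) =
      j * (∑ m ∈ Ioo p n, ((n : ℝ) - m) * ∑ k ∈ Icc 1 p, AA p m k * (if k + 1 < j then 0 else EE (k + 1 - j)) -
        if j ≤ p then D * ∑ m ∈ Ioo p n, ((n : ℝ) - m) * AA p m j else 0) := by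
    by_cases hjp : j ≤ p
    · simp only [if_pos hjp]
      rw [Finset.mul_sum, ← Finset.sum_sub_distrib, Finset.mul_sum]
      refine Finset.sum_congr rfl fun m _ => by ring
    · simp only [if_neg hjp, sub_zero]
      rw [Finset.mul_sum]
      refine Finset.sum_congr rfl fun m _ => by ring
  have key := hXNI p n j h1 hj hn
  rw [← hA, ← hr] at key
  have hcmp : (if 2 ≤ r then (A : ℝ) * (A + 1) / 2 * D * (((r : ℝ) ^ 2 + 4 * r - 8) / 3) else 0) ≤
      if j ≤ p then D * ∑ m ∈ Ioo p n, ((n : ℝ) - m) * AA p m j else 0 := by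
    by_cases h2 : 2 ≤ r
    · rw [if_pos h2, if_pos (by omega)]
      have h3 := hXN3 p n j h1 (by omega) hn
      rw [← hA, ← hr] at h3
      have := mul_le_mul_of_nonneg_left h3 hD.D0
      refine le_trans (le_of_eq ?_) this
      ring
    · rw [if_neg h2]
      by_cases hjp : j ≤ p
      · rw [if_pos hjp]
        refine mul_nonneg hD.D0 (Finset.sum_nonneg fun m hmm => ?_)
        obtain ⟨hm1, hm2⟩ := mem_Ioo.1 hmm
        refine mul_nonneg ?_ (hAA m j h1 hjp hm1)
        have : (m : ℝ) ≤ n := by exact_mod_cast hm2.le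
        linarith
      · rw [if_neg hjp]
  rw [hs]
  refine (norm_add_le _ _).trans ((add_le_add f1 f2).trans ?_)
  rw [f3, ← mul_add]
  refine mul_le_mul_of_nonneg_left ?_ hjr.le
  rw [← key]
  linarith

end Pool.Agent.GD
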